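import Pool.Agent.H55.CG.Targets

/-!
# Lower bound of the renewal mass (row UUL of the board `cog_modules`)
-/

set_option autoImplicit false

open MeasureTheory ProbabilityTheory Filter Topology
open Pool.Agent.H95 Pool.Agent.H95.Cop Pool.Agent.H55.CG

namespace Pool.Agent.H68.CG

/-- the tail with the constant `5/4`, in telescoped form -/
private lemma tail_le (α : ℝ) (hα : 0 < α) (K : PMF ℕ) (cK : ℝ) (hcK : 0 < cK)
    (hK : Tendsto (fun n : ℕ => (K n).toReal * (n : ℝ) ^ (1 + α)) atTop (𝓝 cK)) :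
    ∃ n0 : ℕ, 1 ≤ n0 ∧ ∀ m : ℕ, n0 ≤ m →
      tailK K (m + 1) ≤ 5 / 4 * cK / α * (m : ℝ) ^ (-α) := by
  have h1 : ∀ᶠ n : ℕ in atTop, (K n).toReal * (n : ℝ) ^ (1 + α) < 5 / 4 * cK :=
    hK.eventually (gt_mem_nhds (by linarith))
  obtain ⟨n1, hn1⟩ := eventually_atTop.mp h1
  set C' : ℝ := 5 / 4 * cK / α with hC'
  have hC'0 : 0 < C' := by positivity
  refine ⟨max n1 1, le_max_right _ _, fun m hm => ?_⟩
  have hm1 : 1 ≤ m := (le_max_right _ _).trans hm
  have hmn : n1 ≤ m := (le_max_left _ _).trans hm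
  have key : ∀ j : ℕ, m ≤ j → kk K (j + 1) ≤ C' * ((j : ℝ) ^ (-α) - ((j : ℝ) + 1) ^ (-α)) := by
    intro j hj
    have hj0 : (0 : ℝ) < ((j + 1 : ℕ) : ℝ) := by exact_mod_cast Nat.succ_pos j
    have h2 := hn1 (j + 1) (by omega)
    have h3 : 0 < ((j + 1 : ℕ) : ℝ) ^ (1 + α) := Real.rpow_pos_of_pos hj0 _
    have h4 : kk K (j + 1) ≤ 5 / 4 * cK * ((j + 1 : ℕ) : ℝ) ^ (-(1 + α)) := by
      rw [Real.rpow_neg hj0.le, ← div_eq_mul_inv, le_div_iff₀ h3]
      exact h2.le
    have h5 := rpow_tele1 α hα j (by omega)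
    push_cast at h4
    calc kk K (j + 1) ≤ 5 / 4 * cK * ((j : ℝ) + 1) ^ (-(1 + α)) := h4
      _ = C' * (α * ((j : ℝ) + 1) ^ (-(1 + α))) := by rw [hC']; field_simp
      _ ≤ _ := mul_le_mul_of_nonneg_left h5 hC'0.le
  have hfin : ∀ M : ℕ, ∑ i ∈ Finset.range M, kk K (i + (m + 1)) ≤
      C' * ((m : ℝ) ^ (-α) - ((M + m : ℕ) : ℝ) ^ (-α)) := by
    intro M
    induction M with
    | zero => simp
    | succ M ih =>
      rw [Finset.sum_range_succ]
      have h2 := key (M + m) (by omega)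
      have e : ((M + 1 + m : ℕ) : ℝ) = ((M + m : ℕ) : ℝ) + 1 := by push_cast; ring
      have e2 : M + (m + 1) = M + m + 1 := by omega
      rw [e, e2]
      nlinarith
  have h2 : HasSum (fun i => kk K (i + (m + 1))) (tailK K (m + 1)) := by
    have := (kk_hasSum K)
    rw [← hasSum_nat_add_iff' (m + 1)] at this
    exact this
  refine le_of_tendsto h2.tendsto_sum_nat (Filter.Eventually.of_forall (fun M => ?_))
  refine (hfin M).trans ?_
  apply mul_le_mul_of_nonneg_left _ hC'0.le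
  have : 0 ≤ ((M + m : ℕ) : ℝ) ^ (-α) := Real.rpow_nonneg (Nat.cast_nonneg _) _
  linarith

private lemma sum_le (α : ℝ) (hα : 0 < α) (hα1 : α < 1) (L : ℕ) :
    ∑ j ∈ Finset.range L, (j : ℝ) ^ (-α) ≤ (L : ℝ) ^ (1 - α) / (1 - α) := by
  refine le_trans ?_ (sum_rpow_le α hα hα1 L)
  cases L with
  | zero => simp
  | succ M =>
    rw [Finset.sum_range_succ', Finset.sum_range_succ]
    have h0 : (((0 : ℕ) : ℝ)) ^ (-α) = 0 := by
      rw [Nat.cast_zero]
      exact Real.zero_rpow (by linarith)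
    rw [h0]
    have h1 : ∑ k ∈ Finset.range M, ((k + 1 : ℕ) : ℝ) ^ (-α) =
        ∑ k ∈ Finset.range M, ((k : ℝ) + 1) ^ (-α) := by
      apply Finset.sum_congr rfl
      intro k _
      push_cast
      rfl
    rw [h1]
    have h2 : 0 ≤ ((M : ℝ) + 1) ^ (-α) := Real.rpow_nonneg (by positivity) _
    linarith

theorem pf_UUL : T_UUL := by
  intro α hα hα1 K hK0 cK hcK hK
  obtain ⟨n0, hn0, htail⟩ := tail_le α hα K cK hcK hK
  have h1α : 0 < 1 - α := by linarith
  set A : ℝ := cK / (α * (1 - α)) with hA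
  have hA0 : 0 < A := by positivity
  have hlarge : ∀ᶠ L : ℕ in atTop, (n0 : ℝ) / (3 / 4 * A) ≤ (L : ℝ) ^ (1 - α) :=
    ((tendsto_rpow_atTop h1α).comp tendsto_natCast_atTop_atTop).eventually_ge_atTop _
  filter_upwards [hlarge, eventually_ge_atTop 1] with L hL hL1
  have hL0 : (0 : ℝ) < L := by exact_mod_cast hL1
  have hmain := le_UU_mul K hK0 L
  have hP : 0 < (L : ℝ) ^ (1 - α) := Real.rpow_pos_of_pos hL0 _
  have hterm : ∀ j ∈ Finset.range L, tailK K (j + 1) ≤
      (if j < n0 then (1 : ℝ) else 0) + 5 / 4 * cK / α * (j : ℝ) ^ (-α) := by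
    intro j _
    have hj : 0 ≤ 5 / 4 * cK / α * (j : ℝ) ^ (-α) :=
      mul_nonneg (by positivity) (Real.rpow_nonneg (Nat.cast_nonneg _) _)
    split_ifs with h
    · have := tailK_le_one K (j + 1)
      linarith
    · have := htail j (by omega)
      linarith
  have hcount : ∑ j ∈ Finset.range L, (if j < n0 then (1 : ℝ) else 0) ≤ n0 := by
    rw [Finset.sum_boole]
    have : (Finset.filter (fun j => j < n0) (Finset.range L)).card ≤ (Finset.range n0).card := by
      apply Finset.card_le_card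
      intro j hj
      rw [Finset.mem_filter] at hj
      exact Finset.mem_range.mpr hj.2
    rw [Finset.card_range] at this
    exact_mod_cast this
  have hsum : ∑ j ∈ Finset.range L, tailK K (j + 1) ≤ 2 * A * (L : ℝ) ^ (1 - α) := by
    have h2 : ∑ j ∈ Finset.range L, tailK K (j + 1) ≤
        n0 + 5 / 4 * cK / α * ((L : ℝ) ^ (1 - α) / (1 - α)) := by
      refine (Finset.sum_le_sum hterm).trans ?_
      rw [Finset.sum_add_distrib, ← Finset.mul_sum]
      have := mul_le_mul_of_nonneg_left (sum_le α hα hα1 L)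
        (show 0 ≤ 5 / 4 * cK / α by positivity)
      linarith
    have h3 : 5 / 4 * cK / α * ((L : ℝ) ^ (1 - α) / (1 - α)) =
        5 / 4 * A * (L : ℝ) ^ (1 - α) := by
      rw [hA]; field_simp
    rw [div_le_iff₀ (by positivity)] at hL
    rw [h3] at h2
    linarith
  have hU : 0 ≤ UU K L := Finset.sum_nonneg (fun n _ => uu_nonneg _ (kk_nonneg K) n)
  have h3 : (L : ℝ) ≤ UU K L * (2 * A * (L : ℝ) ^ (1 - α)) :=
    hmain.trans (mul_le_mul_of_nonneg_left hsum hU)
  have h4 : (L : ℝ) = (L : ℝ) ^ α * (L : ℝ) ^ (1 - α) := by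
    rw [← Real.rpow_add hL0]; simp
  have h7 : (L : ℝ) ^ α * (L : ℝ) ^ (1 - α) ≤ (UU K L * (2 * A)) * (L : ℝ) ^ (1 - α) := by
    rw [← h4]
    calc (L : ℝ) ≤ _ := h3
      _ = _ := by ring
  have h8 := le_of_mul_le_mul_right h7 hP
  have h9 : α * (1 - α) / (2 * cK) = 1 / (2 * A) := by
    rw [hA]; field_simp
  rw [h9, one_div, inv_mul_le_iff₀ (by positivity)]
  linarith

end Pool.Agent.H68.CG
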