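import Pool.Agent.H55.CG.Targets

/-!
# The last group (row BAS of the board `cog_modules`)
-/

set_option autoImplicit false

open MeasureTheory ProbabilityTheory Filter Topology
open Pool.Agent.H95 Pool.Agent.H95.Cop Pool.Agent.H55.CG

namespace Pool.Agent.H68.CG

theorem pf_BAS (hPZS : T_PZS) (hPZU : T_PZU) (hGGS : T_GGS) : T_BAS := by
  intro K ℓ hℓ t n x _hn
  have hV := (hGGS K ℓ hℓ).1
  unfold gg Xg
  rw [mul_div_cancel₀ _ hV.ne']
  apply Finset.sum_le_sum
  intro y hy
  rw [Finset.mem_Ico] at hy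
  rw [Finset.mul_sum]
  simp only [Nat.add_zero]
  have hsub : Finset.Ico y (2 * n * ℓ) ⊆ Finset.Ico ((2 * n - 1) * ℓ) (2 * n * ℓ) := by
    intro z hz
    rw [Finset.mem_Ico] at hz ⊢
    exact ⟨hy.1.trans hz.1, hz.2⟩
  refine le_trans (Finset.sum_le_sum ?_) (Finset.sum_le_sum_of_subset_of_nonneg hsub ?_)
  · intro z hz
    rw [Finset.mem_Ico] at hz
    rw [if_pos hz.1]
    have h1 := hPZU K x (z - y) y
    have e1 : y + (z - y) = z := by omega
    rw [e1] at h1
    have e2 : Real.exp (ex ℓ t n false x y z) =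
        Real.exp (if t then H x 0 y else 0) * Real.exp (H x y z / 2) := by
      unfold ex
      rw [← Real.exp_add]
      simp
    rw [e2]
    calc uu (kk K) (z - y) *
          (Real.exp (if t then H x 0 y else 0) * Real.exp (H x y z / 2))
        = Real.exp (if t then H x 0 y else 0) *
          (uu (kk K) (z - y) * Real.exp (H x y z / 2)) := by ring
      _ ≤ _ := mul_le_mul_of_nonneg_left h1 (Real.exp_pos _).le
  · intro z _ _
    apply mul_nonneg (Real.exp_pos _).le
    split_ifs
    · exact (hPZS K x y (z - y) 0).2.2.1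
    · exact le_refl _

end Pool.Agent.H68.CG
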